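import Mathlib
import Pool.Agent.H204R3.GP.MTDefs

/-!
# The motivic Galois group and the `ℓ`-adic monodromy group of the first cohomology of an abelian
variety: definitions

`H` is the rational homology `H_1(A(ℂ), ℚ)`, `T` the tangent space, `per : H → T` the inclusion;
`V = k ⊗ H` (where `k = ℚ_ℓ`) is the rational Tate module with the action `ρ` of the Galois group `Γ`
of the field of definition `k₀`, `χ` is the cyclotomic character. A subgroup `Δ` of finite index of `Γ`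
is the Galois group of a finite extension `k'` of `k₀`.
-/

set_option autoImplicit false

namespace Pool.Agent.Q43.ST

open TensorProduct Pool.Agent.H204R3.GP

variable {k H T Γ : Type} [Field k] [CharZero k] [AddCommGroup H] [Module ℚ H]
  [AddCommGroup T] [Module ℂ T] [Group Γ]

/-- The multilinear form `φ` on `V = k ⊗ H` is the `ℓ`-adic realization of the rational form `ψ`. -/
def Realizes {κ : Type} (φ : MultilinearMap k (fun _ : κ => k ⊗[ℚ] H) k)
    (ψ : MultilinearMap ℚ (fun _ : κ => H) ℚ) : Prop :=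
  ∀ v : κ → H, φ (fun l => (1 : k) ⊗ₜ[ℚ] v l) = ((ψ v : ℚ) : k)

/-- Deligne's theorem that Hodge classes on abelian varieties are absolute Hodge classes: the Galois
group transforms (the realizations of) Hodge classes in `(H^1)^{⊗ 2 m}(m)` into Hodge classes. -/
def GaloisActsOnHodge (per : H →+ T) (ρ : Representation k Γ (k ⊗[ℚ] H)) (χ : Γ →* k) : Prop :=
  ∀ (s : Γ) (m : ℕ) (ψ : MultilinearMap ℚ (fun _ : Fin m × Fin 2 => H) ℚ)
    (φ : MultilinearMap k (fun _ : Fin m × Fin 2 => k ⊗[ℚ] H) k),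
    IsHodgeTensor per ψ → Realizes φ ψ →
    ∃ (ψ' : MultilinearMap ℚ (fun _ : Fin m × Fin 2 => H) ℚ)
      (φ' : MultilinearMap k (fun _ : Fin m × Fin 2 => k ⊗[ℚ] H) k),
      IsHodgeTensor per ψ' ∧ Realizes φ' ψ' ∧ ∀ v, φ (fun l => ρ s (v l)) = χ s ^ m * φ' v

/-- The Galois invariant elements of the spaces `(H^1)^{⊗ 2 m}(m)`, over the extension `k'` with the
Galois group `Δ`. -/
def galoisTensors (ρ : Representation k Γ (k ⊗[ℚ] H)) (χ : Γ →* k) (Δ : Subgroup Γ) (m : ℕ) :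
    Set (MultilinearMap k (fun _ : Fin m × Fin 2 => k ⊗[ℚ] H) k) :=
  {φ | ∀ s ∈ Δ, ∀ v, φ (fun l => ρ s (v l)) = χ s ^ m * φ v}

/-- The motivic elements: the (realizations of the absolute) Hodge classes defined over `k'`. -/
def motivicTensors (per : H →+ T) (ρ : Representation k Γ (k ⊗[ℚ] H)) (χ : Γ →* k)
    (Δ : Subgroup Γ) (m : ℕ) : Set (MultilinearMap k (fun _ : Fin m × Fin 2 => k ⊗[ℚ] H) k) :=
  {φ | φ ∈ galoisTensors ρ χ Δ m ∧ ∃ ψ : MultilinearMap ℚ (fun _ : Fin m × Fin 2 => H) ℚ,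
    IsHodgeTensor per ψ ∧ Realizes φ ψ}

/-- The multilinear form `Φ` on `R ⊗ V` is the extension of the form `φ` on `V`. -/
def Extends {V κ : Type} [AddCommGroup V] [Module k V] (R : Type) [CommRing R] [Algebra k R]
    (φ : MultilinearMap k (fun _ : κ => V) k) (Φ : MultilinearMap R (fun _ : κ => R ⊗[k] V) R) :
    Prop :=
  ∀ v : κ → V, Φ (fun l => (1 : R) ⊗ₜ[k] v l) = algebraMap k R (φ v)

/-- The `R`-points `(u, c)` of the tannakian group defined by a family of tensors (of weight zero, in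
`(V*)^{⊗ 2 m}(m)`): `u` is an automorphism of `R ⊗ V`, `c` is its action on the Tate motive. -/
def tannakian {V : Type} [AddCommGroup V] [Module k V]
    (S : ∀ m : ℕ, Set (MultilinearMap k (fun _ : Fin m × Fin 2 => V) k)) (R : Type) [CommRing R]
    [Algebra k R] : Set (((R ⊗[k] V) ≃ₗ[R] (R ⊗[k] V)) × Rˣ) :=
  {g | ∀ (m : ℕ), ∀ φ ∈ S m, ∀ Φ : MultilinearMap R (fun _ : Fin m × Fin 2 => R ⊗[k] V) R,
    Extends R φ Φ → ∀ w, Φ (fun l => g.1 (w l)) = (g.2 : R) ^ m * Φ w}

/-- The `R`-points of the `ℓ`-adic monodromy group `G_{ℓ,k'}` of `h^1(A)`: the group of the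
automorphisms which fix all Galois invariant tensors. -/
def monodromy (ρ : Representation k Γ (k ⊗[ℚ] H)) (χ : Γ →* k) (Δ : Subgroup Γ) (R : Type)
    [CommRing R] [Algebra k R] :
    Set (((R ⊗[k] (k ⊗[ℚ] H)) ≃ₗ[R] (R ⊗[k] (k ⊗[ℚ] H))) × Rˣ) :=
  tannakian (galoisTensors ρ χ Δ) R

/-- The `R`-points of the motivic Galois group of `h^1(A)` over `k'`. -/
def motivic (per : H →+ T) (ρ : Representation k Γ (k ⊗[ℚ] H)) (χ : Γ →* k) (Δ : Subgroup Γ)
    (R : Type) [CommRing R] [Algebra k R] :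
    Set (((R ⊗[k] (k ⊗[ℚ] H)) ≃ₗ[R] (R ⊗[k] (k ⊗[ℚ] H))) × Rˣ) :=
  tannakian (motivicTensors per ρ χ Δ) R

/-- The kernel of the multiplier. -/
def multiplierKernel {M R : Type} [CommRing R] [AddCommGroup M] [Module R M]
    (G : Set ((M ≃ₗ[R] M) × Rˣ)) : Set (M ≃ₗ[R] M) :=
  {u | (u, 1) ∈ G}

end Pool.Agent.Q43.ST
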