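import Pool.Agent.Q43.ST.Defs
import Pool.Agent.W516.MT.Defs

/-!
# Galois descent for Hodge classes, and the equality of two tannakian groups
-/

set_option autoImplicit false
set_option linter.unusedSectionVars false

namespace Pool.Agent.Q43.ST

open Module TensorProduct Pool.Agent.H204R3.GP Pool.Agent.W516.MTD

noncomputable section

section ext

variable {A R V κ : Type} [CommRing A] [CommRing R] [Algebra A R] [AddCommGroup V] [Module A V]
  [Fintype κ] [DecidableEq κ] {n : ℕ} (b : Basis (Fin n) A V)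

/-- The extension of a multilinear form. -/
def exR (R : Type) [CommRing R] [Algebra A R] (φ : MultilinearMap A (fun _ : κ => V) A) :
    MultilinearMap R (fun _ : κ => R ⊗[A] V) R :=
  ∑ I : κ → Fin n, algebraMap A R (φ (fun l => b (I l))) •
    ((MultilinearMap.mkPiAlgebra R κ R).compLinearMap (fun l => (b.baseChange R).coord (I l)))

theorem exR_apply (φ : MultilinearMap A (fun _ : κ => V) A) (w : κ → R ⊗[A] V) :
    exR b R φ w = ∑ I : κ → Fin n, algebraMap A R (φ (fun l => b (I l))) *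
      ∏ l, (b.baseChange R).coord (I l) (w l) := by
  unfold exR
  rw [_root_.sum_apply]
  rfl

theorem exR_basis (φ : MultilinearMap A (fun _ : κ => V) A) (I : κ → Fin n) :
    exR b R φ (fun l => (1 : R) ⊗ₜ[A] b (I l)) = algebraMap A R (φ (fun l => b (I l))) := by
  rw [exR_apply, Finset.sum_eq_single I]
  · rw [Finset.prod_eq_one, mul_one]
    intro l _
    rw [← Basis.baseChange_apply R b, Basis.coord_apply, Basis.repr_self, Finsupp.single_eq_same]
  · intro J _ hJ
    obtain ⟨l, hl⟩ := Function.ne_iff.1 hJ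
    rw [Finset.prod_eq_zero (Finset.mem_univ l), mul_zero]
    rw [← Basis.baseChange_apply R b, Basis.coord_apply, Basis.repr_self,
      Finsupp.single_eq_of_ne hl]
  · intro h
    exact absurd (Finset.mem_univ _) h

theorem exR_extends (φ : MultilinearMap A (fun _ : κ => V) A) (v : κ → V) :
    exR b R φ (fun l => (1 : R) ⊗ₜ[A] v l) = algebraMap A R (φ v) := by
  let f₁ : MultilinearMap A (fun _ : κ => V) R :=
    ((exR b R φ).restrictScalars A).compLinearMap (fun _ => TensorProduct.mk A R V 1)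
  let f₂ : MultilinearMap A (fun _ : κ => V) R :=
    (Algebra.linearMap A R).compMultilinearMap φ
  have h : f₁ = f₂ := Basis.ext_multilinear (fun _ => b) fun I => exR_basis b φ I
  exact congrArg (fun f => f v) h

theorem ext_unique {Φ Φ' : MultilinearMap R (fun _ : κ => R ⊗[A] V) R}
    (h : ∀ I : κ → Fin n, Φ (fun l => (1 : R) ⊗ₜ[A] b (I l)) =
      Φ' (fun l => (1 : R) ⊗ₜ[A] b (I l))) : Φ = Φ' := by
  refine Basis.ext_multilinear (fun _ => b.baseChange R) fun I => ?_
  simpa only [Basis.baseChange_apply] using h I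

end ext

section descent

variable {k H T Γ : Type} [Field k] [CharZero k] [AddCommGroup H] [Module ℚ H]
  [AddCommGroup T] [Module ℂ T] [Group Γ] {n : ℕ} (b : Basis (Fin n) ℚ H)
  (per : H →+ T) (ρ : Representation k Γ (k ⊗[ℚ] H)) (χ : Γ →* k)

theorem hodge_smul {κ : Type} {ψ : MultilinearMap ℚ (fun _ : κ => H) ℚ} (h : IsHodgeTensor per ψ)
    (c : ℚ) : IsHodgeTensor per (c • ψ) := by
  obtain ⟨Ψ, h1, h2⟩ := h
  refine ⟨(c : ℝ) • Ψ, fun v => ?_, fun z hz u => ?_⟩
  · rw [_root_.smul_apply, _root_.smul_apply, h1, smul_eq_mul, smul_eq_mul, Rat.cast_mul]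
  · rw [_root_.smul_apply, _root_.smul_apply, h2 z hz]

theorem hodge_add {κ : Type} {ψ ψ' : MultilinearMap ℚ (fun _ : κ => H) ℚ}
    (h : IsHodgeTensor per ψ) (h' : IsHodgeTensor per ψ') : IsHodgeTensor per (ψ + ψ') := by
  obtain ⟨Ψ, h1, h2⟩ := h
  obtain ⟨Ψ', h3, h4⟩ := h'
  refine ⟨Ψ + Ψ', fun v => ?_, fun z hz u => ?_⟩
  · rw [_root_.add_apply, _root_.add_apply, h1, h3, Rat.cast_add]
  · rw [_root_.add_apply, _root_.add_apply, h2 z hz, h4 z hz]

theorem hodge_zero {κ : Type} : IsHodgeTensor per (0 : MultilinearMap ℚ (fun _ : κ => H) ℚ) := by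
  refine ⟨0, fun v => ?_, fun z hz u => rfl⟩
  rw [_root_.zero_apply, _root_.zero_apply, Rat.cast_zero]

/-- The rational form obtained from a functional. -/
def lamF {κ : Type} (lam : k →ₗ[ℚ] ℚ) (φ : MultilinearMap k (fun _ : κ => k ⊗[ℚ] H) k) :
    MultilinearMap ℚ (fun _ : κ => H) ℚ :=
  (lam.compMultilinearMap (φ.restrictScalars ℚ)).compLinearMap
    (fun _ => TensorProduct.mk ℚ k H 1)

theorem lamF_apply {κ : Type} (lam : k →ₗ[ℚ] ℚ)
    (φ : MultilinearMap k (fun _ : κ => k ⊗[ℚ] H) k) (v : κ → H) :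
    lamF lam φ v = lam (φ (fun l => (1 : k) ⊗ₜ[ℚ] v l)) := rfl

variable {κ : Type} [Fintype κ] [DecidableEq κ]

theorem lamF_realizes {φ : MultilinearMap k (fun _ : κ => k ⊗[ℚ] H) k}
    {ψ : MultilinearMap ℚ (fun _ : κ => H) ℚ} (h : Realizes φ ψ) (lam : k →ₗ[ℚ] ℚ) :
    lamF lam φ = lam 1 • ψ := by
  ext v
  rw [lamF_apply, h v, _root_.smul_apply, smul_eq_mul]
  have h1 : ((ψ v : ℚ) : k) = (ψ v) • (1 : k) := by rw [Rat.smul_def, mul_one]
  rw [h1, map_smul, smul_eq_mul, mul_comm]

theorem exR_realizes (ψ : MultilinearMap ℚ (fun _ : κ => H) ℚ) : Realizes (exR b k ψ) ψ := by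
  intro v
  rw [exR_extends]
  exact eq_ratCast _ _

include b in
theorem realizes_unique {φ φ' : MultilinearMap k (fun _ : κ => k ⊗[ℚ] H) k}
    {ψ : MultilinearMap ℚ (fun _ : κ => H) ℚ} (h : Realizes φ ψ) (h' : Realizes φ' ψ) : φ = φ' :=
  ext_unique b fun I => (h _).trans (h' _).symm

theorem realizes_smul {φ : MultilinearMap k (fun _ : κ => k ⊗[ℚ] H) k}
    {ψ : MultilinearMap ℚ (fun _ : κ => H) ℚ} (h : Realizes φ ψ) (c : ℚ) :
    Realizes ((c : k) • φ) (c • ψ) := by
  intro v
  rw [_root_.smul_apply, h v, _root_.smul_apply, smul_eq_mul, smul_eq_mul, Rat.cast_mul]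

theorem realizes_add {φ φ' : MultilinearMap k (fun _ : κ => k ⊗[ℚ] H) k}
    {ψ ψ' : MultilinearMap ℚ (fun _ : κ => H) ℚ} (h : Realizes φ ψ) (h' : Realizes φ' ψ') :
    Realizes (φ + φ') (ψ + ψ') := by
  intro v
  rw [_root_.add_apply, h v, h' v, _root_.add_apply, Rat.cast_add]

theorem realizes_zero : Realizes (0 : MultilinearMap k (fun _ : κ => k ⊗[ℚ] H) k)
    (0 : MultilinearMap ℚ (fun _ : κ => H) ℚ) := by
  intro v
  rw [_root_.zero_apply, _root_.zero_apply, Rat.cast_zero]

theorem lamF_hodge {φ : MultilinearMap k (fun _ : κ => k ⊗[ℚ] H) k}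
    (h : IsHodgeCombination per φ) : ∀ lam : k →ₗ[ℚ] ℚ, IsHodgeTensor per (lamF lam φ) := by
  unfold IsHodgeCombination at h
  induction h using Submodule.span_induction with
  | mem x hx =>
    obtain ⟨ψ, h1, h2⟩ := hx
    intro lam
    rw [lamF_realizes h2 lam]
    exact hodge_smul per h1 _
  | zero =>
    intro lam
    have h1 : lamF lam (0 : MultilinearMap k (fun _ : κ => k ⊗[ℚ] H) k) = 0 := by
      ext v
      exact map_zero lam
    rw [h1]
    exact hodge_zero per
  | add x y _ _ hx hy =>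
    intro lam
    have h1 : lamF lam (x + y) = lamF lam x + lamF lam y := by
      ext v
      exact map_add lam _ _
    rw [h1]
    exact hodge_add per (hx lam) (hy lam)
  | smul c x _ hx =>
    intro lam
    exact hx (lam ∘ₗ (LinearMap.mulLeft ℚ c))

theorem lamF_act {m : ℕ} {s : Γ} (hact : GaloisActsOnHodge per ρ χ)
    {φ : MultilinearMap k (fun _ : Fin m × Fin 2 => k ⊗[ℚ] H) k}
    (h : IsHodgeCombination per φ) :
    ∃ φ₂ : MultilinearMap k (fun _ : Fin m × Fin 2 => k ⊗[ℚ] H) k,
      (∀ v, φ (fun l => ρ s (v l)) = χ s ^ m * φ₂ v) ∧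
      ∀ lam : k →ₗ[ℚ] ℚ, ∀ v, exR b k (lamF lam φ) (fun l => ρ s (v l)) =
        χ s ^ m * exR b k (lamF lam φ₂) v := by
  unfold IsHodgeCombination at h
  induction h using Submodule.span_induction with
  | mem x hx =>
    obtain ⟨ψ, h1, h2⟩ := hx
    obtain ⟨ψ', φ', h3, h4, h5⟩ := hact s m ψ x h1 h2
    refine ⟨φ', h5, fun lam v => ?_⟩
    rw [lamF_realizes h2 lam, lamF_realizes h4 lam,
      realizes_unique b (exR_realizes b (lam 1 • ψ)) (realizes_smul h2 (lam 1)),
      realizes_unique b (exR_realizes b (lam 1 • ψ')) (realizes_smul h4 (lam 1)),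
      _root_.smul_apply, _root_.smul_apply, h5, smul_eq_mul, smul_eq_mul]
    ring
  | zero =>
    refine ⟨0, fun v => by rw [_root_.zero_apply, _root_.zero_apply, mul_zero], fun lam v => ?_⟩
    have h1 : lamF lam (0 : MultilinearMap k (fun _ : Fin m × Fin 2 => k ⊗[ℚ] H) k) = 0 := by
      ext v
      exact map_zero lam
    rw [h1, realizes_unique b (exR_realizes b (0 : MultilinearMap ℚ (fun _ : Fin m × Fin 2 => H) ℚ))
      realizes_zero, _root_.zero_apply, _root_.zero_apply, mul_zero]
  | add x y _ _ hx hy =>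
    obtain ⟨x', h1, h2⟩ := hx
    obtain ⟨y', h3, h4⟩ := hy
    refine ⟨x' + y', fun v => ?_, fun lam v => ?_⟩
    · rw [_root_.add_apply, _root_.add_apply, h1, h3]
      ring
    · have h5 : ∀ z w : MultilinearMap k (fun _ : Fin m × Fin 2 => k ⊗[ℚ] H) k,
          exR b k (lamF lam (z + w)) = exR b k (lamF lam z) + exR b k (lamF lam w) := by
        intro z w
        have h6 : lamF lam (z + w) = lamF lam z + lamF lam w := by
          ext v
          exact map_add lam _ _
        rw [h6]
        exact realizes_unique b (exR_realizes b _)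
          (realizes_add (exR_realizes b _) (exR_realizes b _))
      rw [h5, h5, _root_.add_apply, _root_.add_apply, h2, h4]
      ring
  | smul c x _ hx =>
    obtain ⟨x', h1, h2⟩ := hx
    refine ⟨c • x', fun v => ?_, fun lam v => ?_⟩
    · rw [_root_.smul_apply, _root_.smul_apply, h1, smul_eq_mul, smul_eq_mul]
      ring
    · exact h2 (lam ∘ₗ (LinearMap.mulLeft ℚ c)) v

theorem eq_sum_lamF (φ : MultilinearMap k (fun _ : κ => k ⊗[ℚ] H) k) :
    ∃ (S : Finset k) (c : k → k) (lam : k → (k →ₗ[ℚ] ℚ)),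
      φ = ∑ α ∈ S, c α • exR b k (lamF (lam α) φ) := by
  classical
  let E := Basis.ofVectorSpace ℚ k
  let cI : (κ → Fin n) → k := fun I => φ (fun l => (1 : k) ⊗ₜ[ℚ] b (I l))
  let S₀ : Finset (Basis.ofVectorSpaceIndex ℚ k) :=
    Finset.univ.biUnion fun I : κ → Fin n => (E.repr (cI I)).support
  have hE : φ = ∑ α ∈ S₀, (E α) • exR b k (lamF (E.coord α) φ) := by
    refine ext_unique b fun I => ?_
    rw [_root_.sum_apply]
    have h1 : ∀ α ∈ S₀, ((E α) • exR b k (lamF (E.coord α) φ)) (fun l => (1 : k) ⊗ₜ[ℚ] b (I l)) =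
        (E.repr (cI I) α) • E α := by
      intro α _
      rw [_root_.smul_apply, exR_realizes b, lamF_apply, Basis.coord_apply, smul_eq_mul,
        Rat.smul_def, mul_comm]
    rw [Finset.sum_congr rfl h1]
    have h2 : (E.repr (cI I)).support ⊆ S₀ :=
      Finset.subset_biUnion_of_mem (fun I : κ → Fin n => (E.repr (cI I)).support)
        (Finset.mem_univ I)
    have h3 := E.linearCombination_repr (cI I)
    rw [Finsupp.linearCombination_apply, Finsupp.sum] at h3
    refine Eq.trans h3.symm ?_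
    refine Finset.sum_subset h2 fun α _ hα => ?_
    rw [Finsupp.notMem_support_iff.1 hα, zero_smul]
  refine ⟨S₀.image Subtype.val, fun α => α,
    fun α => if h : α ∈ Basis.ofVectorSpaceIndex ℚ k then E.coord ⟨α, h⟩ else 0, ?_⟩
  rw [Finset.sum_image (fun x _ y _ h => Subtype.ext h)]
  refine Eq.trans hE (Finset.sum_congr rfl fun α _ => ?_)
  have h4 : (E α : k) = (α : k) := Basis.ofVectorSpace_apply_self ℚ k α
  have h5 : (if h : (α : k) ∈ Basis.ofVectorSpaceIndex ℚ k then E.coord ⟨α, h⟩ else 0) =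
    E.coord α := dif_pos α.2
  change _ = (α : k) • exR b k (lamF
    (if h : (α : k) ∈ Basis.ofVectorSpaceIndex ℚ k then E.coord ⟨α, h⟩ else 0) φ)
  rw [h4, h5]

include b in
/-- Galois descent: a Galois invariant combination of Hodge classes is a combination of Galois
invariant Hodge classes. -/
theorem descent {m : ℕ} (hact : GaloisActsOnHodge per ρ χ) (Δ : Subgroup Γ)
    {φ : MultilinearMap k (fun _ : Fin m × Fin 2 => k ⊗[ℚ] H) k}
    (h : IsHodgeCombination per φ) (hinv : φ ∈ galoisTensors ρ χ Δ m) :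
    φ ∈ Submodule.span k (motivicTensors per ρ χ Δ m) := by
  obtain ⟨S, c, lam, hS⟩ := eq_sum_lamF b φ
  rw [hS]
  refine Submodule.sum_mem _ fun α _ => Submodule.smul_mem _ _ (Submodule.subset_span ?_)
  refine ⟨fun s hs v => ?_, lamF (lam α) φ, lamF_hodge per h _, exR_realizes b _⟩
  obtain ⟨φ₂, h1, h2⟩ := lamF_act b per ρ χ (s := s) hact h
  have hχ : χ s ^ m ≠ 0 := by
    refine pow_ne_zero _ ?_
    intro h0
    have h3 : χ s * χ s⁻¹ = 1 := by rw [← map_mul, mul_inv_cancel, map_one]
    rw [h0, zero_mul] at h3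
    exact zero_ne_one h3
  have h3 : φ₂ = φ := by
    ext v
    exact mul_left_cancel₀ hχ ((h1 v).symm.trans (hinv s hs v))
  rw [h2, h3]

end descent

section group

variable {k V : Type} [Field k] [AddCommGroup V] [Module k V] {n : ℕ} (b : Basis (Fin n) k V)

include b in
theorem tannakian_eq {S S' : ∀ m : ℕ, Set (MultilinearMap k (fun _ : Fin m × Fin 2 => V) k)}
    (h1 : ∀ m, S' m ⊆ S m) (h2 : ∀ m, ∀ φ ∈ S m, φ ∈ Submodule.span k (S' m)) (R : Type)
    [CommRing R] [Algebra k R] : tannakian S R = tannakian S' R := by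
  refine Set.Subset.antisymm (fun g hg m φ hφ => hg m φ (h1 m hφ)) fun g hg m φ hφ => ?_
  have h3 : ∀ w, exR b R φ (fun l => g.1 (w l)) = (g.2 : R) ^ m * exR b R φ w := by
    have h4 := h2 m φ hφ
    clear hφ
    induction h4 using Submodule.span_induction with
    | mem x hx => exact hg m x hx (exR b R x) (exR_extends b x)
    | zero =>
      intro w
      have h5 : exR b R (0 : MultilinearMap k (fun _ : Fin m × Fin 2 => V) k) = 0 := by
        refine ext_unique b fun I => ?_
        rw [exR_basis, _root_.zero_apply, _root_.zero_apply, map_zero]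
      rw [h5, _root_.zero_apply, _root_.zero_apply, mul_zero]
    | add x y _ _ hx hy =>
      intro w
      have h5 : exR b R (x + y) = exR b R x + exR b R y := by
        refine ext_unique b fun I => ?_
        rw [exR_basis, _root_.add_apply, _root_.add_apply, exR_basis, exR_basis, map_add]
      rw [h5, _root_.add_apply, _root_.add_apply, hx, hy]
      ring
    | smul c x _ hx =>
      intro w
      have h5 : exR b R (c • x) = algebraMap k R c • exR b R x := by
        refine ext_unique b fun I => ?_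
        rw [exR_basis, _root_.smul_apply, _root_.smul_apply, exR_basis, smul_eq_mul, smul_eq_mul,
          map_mul]
      rw [h5, _root_.smul_apply, _root_.smul_apply, hx, smul_eq_mul, smul_eq_mul]
      ring
  intro Φ hΦ
  have h6 : Φ = exR b R φ := ext_unique b fun I => (hΦ _).trans (exR_extends b φ _).symm
  rw [h6]
  exact h3

end group

end

end Pool.Agent.Q43.ST
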